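import Mathlib
import Pool.Agent.Lead.Ek.Defs

/-! # Basic facts on `NE` and `Red` (packets P1) -/

set_option autoImplicit false

namespace Pool.Agent.Helper95.Ek

open Finset Pool.Agent.Lead.Ek

theorem congr : P1_congr := by
  intro α _ K L R h hK
  induction hK generalizing L with
  | irr K R x hx hirr =>
    refine NE.irr L R x hx ?_
    intro X hX
    have h1 : X ⊆ R := hX.trans (erase_subset _ _)
    have h2 : insert x X ⊆ R := insert_subset hx h1
    rw [← h X h1, ← h _ h2]
    exact hirr X hX
  | split K R x hx h0 h1 ih0 ih1 =>
    refine NE.split L R x hx (ih0 L ?_) (ih1 _ ?_)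
    · intro X hX
      exact h X (hX.trans (erase_subset _ _))
    · intro X hX
      exact h _ (insert_subset hx (hX.trans (erase_subset _ _)))

theorem query : P1_query := by
  intro α _ K R Q
  induction Q using Finset.induction_on generalizing K R with
  | empty =>
    intro _ h
    have h1 := h ∅ (Finset.Subset.refl _)
    rw [Finset.sdiff_empty] at h1
    refine congr _ _ _ ?_ h1
    intro X _
    simp
  | insert a Q ha ih =>
    intro hQ h
    have haR : a ∈ R := hQ (mem_insert_self a Q)
    have hQR : Q ⊆ R.erase a := by
      intro q hq
      refine mem_erase.2 ⟨?_, hQ (mem_insert_of_mem hq)⟩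
      rintro rfl
      exact ha hq
    have hR : R \ insert a Q = (R.erase a) \ Q := by
      ext y
      simp only [mem_sdiff, mem_insert, mem_erase]
      tauto
    refine NE.split K R a haR (ih K _ hQR ?_) (ih _ _ hQR ?_)
    · intro Y hY
      have := h Y (hY.trans (subset_insert _ _))
      rwa [hR] at this
    · intro Y hY
      have := h (insert a Y) (insert_subset_insert a hY)
      rw [hR] at this
      refine congr _ _ _ ?_ this
      intro X _
      simp only [Set.mem_ofPred_eq, union_insert]

theorem map : P1_map := by
  intro α β _ _ s K K' R h hK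
  induction hK generalizing K' with
  | irr K R x hx hirr =>
    refine NE.irr K' _ (s x) (mem_map_of_mem s hx) ?_
    intro X' hX'
    rw [← map_erase, subset_map_iff] at hX'
    obtain ⟨X, hX, rfl⟩ := hX'
    have h1 : X ⊆ R := hX.trans (erase_subset _ _)
    have h2 : insert x X ⊆ R := insert_subset hx h1
    rw [← map_insert, h X h1, h _ h2]
    exact hirr X hX
  | split K R x hx h0 h1 ih0 ih1 =>
    refine NE.split K' _ (s x) (mem_map_of_mem s hx) ?_ ?_
    · rw [← map_erase]
      exact ih0 K' (fun X hX => h X (hX.trans (erase_subset _ _)))
    · rw [← map_erase]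
      refine ih1 _ (fun X hX => ?_)
      have := h _ (insert_subset hx (hX.trans (erase_subset _ _)))
      rw [map_insert] at this
      exact this

theorem compl : P1_compl := by
  intro α _ K R hK
  induction hK with
  | irr K R x hx hirr =>
    refine NE.irr _ R x hx ?_
    intro X hX
    have hxX : x ∉ X := fun hc => (mem_erase.1 (hX hc)).1 rfl
    have h1 : R \ X = insert x (R \ insert x X) := by
      ext y
      simp only [mem_sdiff, mem_insert]
      by_cases hy : y = x
      · subst hy; simp [hx, hxX]
      · simp [hy]
    have h2 : R \ insert x X ⊆ R.erase x := by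
      intro y hy
      simp only [mem_sdiff, mem_insert, not_or] at hy
      exact mem_erase.2 ⟨hy.2.1, hy.1⟩
    have h3 := hirr _ h2
    simp only [Set.mem_ofPred_eq]
    rw [h1]
    exact not_congr h3.symm
  | split K R x hx h0 h1 ih0 ih1 =>
    refine NE.split _ R x hx ?_ ?_
    · refine congr _ _ _ ?_ ih1
      intro X hX
      have hxX : x ∉ X := fun hc => (mem_erase.1 (hX hc)).1 rfl
      have h1 : R \ X = insert x ((R.erase x) \ X) := by
        ext y
        simp only [mem_sdiff, mem_insert, mem_erase]
        by_cases hy : y = x
        · subst hy; simp [hx, hxX]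
        · simp [hy]
      simp only [Set.mem_ofPred_eq]
      rw [h1]
    · refine congr _ _ _ ?_ ih0
      intro X hX
      have h1 : R \ insert x X = (R.erase x) \ X := by
        ext y
        simp only [mem_sdiff, mem_insert, mem_erase]
        tauto
      simp only [Set.mem_ofPred_eq]
      rw [h1]

theorem dual : P1_dual := by
  intro α _ _ K hK
  refine congr _ _ _ ?_ (compl K univ hK)
  intro X _
  simp only [Set.mem_ofPred_eq, Pool.Agent.Lead.Ek.dual, compl_eq_univ_sdiff]

theorem redNE : P1_redNE := by
  intro α _ K R R0 h h0
  induction h with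
  | refl R => exact h0
  | step R R0 x hx hx0 h h' ih => exact NE.split K R x hx (ih h0) h

theorem redMap : P1_redMap := by
  intro α β _ _ s K K' R R0 h hR
  induction hR with
  | refl R => exact Red.refl _
  | step R R0 x hx hx0 hne h' ih =>
    refine Red.step _ _ (s x) (mem_map_of_mem s hx) ?_ ?_ ?_
    · intro hc
      obtain ⟨y, hy, hyx⟩ := mem_map.1 hc
      exact hx0 (s.injective hyx ▸ hy)
    · rw [← map_erase]
      refine map s _ _ _ ?_ hne
      intro X hX
      have := h _ (insert_subset hx (hX.trans (erase_subset _ _)))
      rw [map_insert] at this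
      exact this
    · rw [← map_erase]
      exact ih (fun X hX => h X (hX.trans (erase_subset _ _)))

theorem redTrans : P1_redTrans := by
  intro α _ K R R1 R0 h h' hs
  induction h with
  | refl R => exact h'
  | step R R1 x hx hx1 hne h2 ih =>
    exact Red.step _ _ x hx (fun hc => hx1 (hs hc)) hne (ih h' hs)

end Pool.Agent.Helper95.Ek
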